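import Pool.Agent.Helper87.PG.Stmts2

/-!
A part of module GENPT of `MP_39dd1a_ag` (hand-in `TwoGroups`): the lines through a general vector
with direction in `Z` avoid the fixed vectors of an automorphism.
-/

set_option autoImplicit false

namespace Pool.Agent.Helper87.PG

open MvPolynomial Pool.Agent.Helper48.VMRT Pool.Agent.Helper87.VM Pool.Agent.Helper87.TC

/-- Linear forms with a given common kernel, which take all values. -/
theorem aff_forms {w r : ℕ} (L : (Fin w → ℂ) →ₗ[ℂ] (Fin w → ℂ))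
    (h : Module.finrank ℂ (LinearMap.ker L) + (r + 1) ≤ w) :
    ∃ Lam : Fin (r + 1) → ((Fin w → ℂ) →ₗ[ℂ] ℂ), (∀ x ∈ LinearMap.ker L, ∀ i, Lam i x = 0) ∧
      ∀ c : Fin (r + 1) → ℂ, ∃ u, ∀ i, Lam i u = c i := by
  have h1 : r + 1 ≤ Module.finrank ℂ (LinearMap.range L) := by
    have h2 := LinearMap.finrank_range_add_finrank_ker L
    rw [Module.finrank_fin_fun] at h2
    omega
  let b := Module.finBasis ℂ (LinearMap.range L)
  refine ⟨fun i => (b.coord (Fin.castLE h1 i)) ∘ₗ L.rangeRestrict, ?_, ?_⟩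
  · intro x hx i
    have h2 : L.rangeRestrict x = 0 := Subtype.ext (LinearMap.mem_ker.1 hx)
    rw [LinearMap.comp_apply, h2, map_zero]
  · intro c
    obtain ⟨u, hu⟩ := (∑ i, c i • b (Fin.castLE h1 i) : LinearMap.range L).2
    refine ⟨u, fun i => ?_⟩
    have h2 : L.rangeRestrict u = ∑ i, c i • b (Fin.castLE h1 i) := Subtype.ext hu
    rw [LinearMap.comp_apply, h2, map_sum, Finset.sum_eq_single i]
    · rw [map_smul, Module.Basis.coord_apply, Module.Basis.repr_self, Finsupp.single_eq_same, smul_eq_mul,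
        mul_one]
    · intro j _ hj
      rw [map_smul, Module.Basis.coord_apply, Module.Basis.repr_self, Finsupp.single_eq_of_ne, smul_zero]
      intro he
      exact hj (Fin.castLE_injective h1 he.symm)
    · intro hi
      exact absurd (Finset.mem_univ i) hi

theorem genpt_aff {w r : ℕ} (L : (Fin w → ℂ) →ₗ[ℂ] (Fin w → ℂ)) (Z : Set (Fin w → ℂ))
    (hZ : DimLE r Z) (h : Module.finrank ℂ (LinearMap.ker L) + 2 * r ≤ w) (h1 : 1 ≤ r)
    (hc : ∀ a : ℂ, ∀ z ∈ Z, a • z ∈ Z) :
    ∃ B : Set (Fin w → ℂ), ZClosed B ∧ (∀ a : ℂ, ∀ u ∈ B, a • u ∈ B) ∧ (∃ u, u ∉ B) ∧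
      ∀ x ∈ LinearMap.ker L, ∀ z ∈ Z, x + z ∈ B := by
  classical
  obtain ⟨Lam, h2, h3⟩ := aff_forms (r := r) L (by omega)
  obtain ⟨P, hP0, hP⟩ := hZ Lam
  let S : Set (Fin (r + 1) → ℂ) := {x | ∀ a : ℂ, eval (a • x) P = 0}
  have hS : ZClosed S := by
    refine zclosed_of_eqs (Set.range fun a : ℂ => aeval (fun i => C a * X i) P) ?_
    intro x
    have h4 : ∀ a : ℂ, eval x (aeval (fun i => C a * X i) P : MvPolynomial (Fin (r + 1)) ℂ) =
        eval (a • x) P := by
      intro a
      have h5 : ev (fun i => C a * X i : Fin (r + 1) → MvPolynomial (Fin (r + 1)) ℂ) x = a • x := by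
        funext i
        change eval x (C a * X i) = a * x i
        rw [map_mul, eval_C, eval_X]
      rw [eval_aeval, h5]
    constructor
    · rintro h5 _ ⟨a, rfl⟩
      exact (h4 a).trans (h5 a)
    · intro h5 a
      exact (h4 a).symm.trans (h5 _ ⟨a, rfl⟩)
  let E : Fin (r + 1) → MvPolynomial (Fin w) ℂ := fun i => ∑ k, C (Lam i (Pi.single k 1)) * X k
  have hE : ∀ u i, ev E u i = Lam i u := by
    intro u i
    change eval u (E i) = _
    simp only [E, map_sum, map_mul, eval_C, eval_X]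
    conv_rhs => rw [← Finset.univ_sum_single u, map_sum]
    refine Finset.sum_congr rfl fun k _ => ?_
    have h5 : (Pi.single k (u k) : Fin w → ℂ) = u k • Pi.single k 1 := by
      rw [← Pi.single_smul]; simp
    rw [h5, map_smul, smul_eq_mul, mul_comm]
  refine ⟨{u | ev E u ∈ S}, zclosed_preimage hS E, ?_, ?_, ?_⟩
  · intro a u hu b
    have h5 : b • ev E (a • u) = (b * a) • ev E u := by
      funext i
      rw [Pi.smul_apply, Pi.smul_apply, hE, hE, map_smul, smul_smul]
    rw [h5]
    exact hu (b * a)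
  · obtain ⟨c, hc'⟩ : ∃ c, eval c P ≠ 0 := by
      by_contra hcon
      push Not at hcon
      exact hP0 (MvPolynomial.funext fun x => by rw [hcon x, map_zero])
    obtain ⟨u, hu⟩ := h3 c
    refine ⟨u, fun h5 => hc' ?_⟩
    have h6 := h5 1
    have h7 : (1 : ℂ) • ev E u = c := by
      funext i
      rw [one_smul, hE, hu]
    rwa [h7] at h6
  · intro x hx z hz a
    have h5 : a • ev E (x + z) = fun i => Lam i (a • z) := by
      funext i
      rw [Pi.smul_apply, hE, map_add, h2 x hx i, zero_add, map_smul]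
    rw [h5]
    exact hP _ (hc a z hz)

end Pool.Agent.Helper87.PG
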