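import Pool.Agent.Helper87.PG.Stmts
import Pool.Agent.Helper87.TC.AX
import Pool.Agent.Helper28.TC.GENP

/-!
Module AX of `MP_39dd1a_ag` (hand-in `FiniteModels`): general points of the resolved quotient.
-/

set_option autoImplicit false

namespace Pool.Agent.Helper87.PG

open MvPolynomial Pool.Agent.Helper48.VMRT Pool.Agent.Helper87.VM Pool.Agent.Helper87.TC

/-- There is an involution. -/
theorem ax_inv {D : VD} {m : ℕ} (h : TD D m) : ∃ τ : D.G, τ ≠ 1 ∧ τ * τ = 1 := by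
  have hp : Fact (Nat.Prime 2) := ⟨Nat.prime_two⟩
  have h1 : 2 ∣ Nat.card D.G := by
    rw [h.card]
    exact dvd_pow_self 2 (by have := h.pos; omega)
  obtain ⟨τ, hτ⟩ := exists_prime_orderOf_dvd_card' 2 h1
  refine ⟨τ, ?_, ?_⟩
  · rintro rfl
    rw [orderOf_one] at hτ
    omega
  · rw [← pow_two, ← hτ, pow_orderOf_eq_one]

theorem ax_zero_FX {D : VD} {m : ℕ} (h : TD D m) : (0 : Option (Fin D.w) × D.ν → ℂ) ∈ FX D := by
  obtain ⟨τ, h1, h2⟩ := ax_inv h
  exact ⟨τ, h1, h2, Or.inl (map_zero _)⟩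

/-- The points over vectors which are moved by the involutions are not fixed points. -/
theorem ax_nfx {D : VD} {m : ℕ} (hTD : TD D m) {u : Fin D.w → ℂ} (hu : NF D u)
    {c₀ : ℂ} (hc₀ : c₀ ≠ 0) : c₀ • D.gr (ov 1 u) ∉ FX D := by
  have hD := hTD.good
  have hFx : ev D.F (ov 1 u) ≠ 0 := by
    intro h
    have h1 := ((hD.fd.zero (ov 1 u)).1 (fun j => congrFun h j)).1
    exact one_ne_zero h1
  have hne : D.gr (ov 1 u) ≠ 0 := seg_ne_zero (fun h0 => one_ne_zero (congrFun h0 none)) hFx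
  rintro ⟨τ, hτ1, hτ2, hFX⟩
  obtain ⟨e, he0, he⟩ : ∃ e : ℂ, e ≠ 0 ∧
      D.ρY τ (c₀ • D.gr (ov 1 u)) = e • c₀ • D.gr (ov 1 u) := by
    rcases hFX with h1 | h1
    · exact ⟨1, one_ne_zero, by rw [h1, one_smul]⟩
    · exact ⟨-1, neg_ne_zero.2 one_ne_zero, by rw [h1, neg_one_smul]⟩
  rw [map_smul, smul_comm e c₀] at he
  have he' := smul_right_injective _ hc₀ he
  change D.ρY τ (D.gr (ov 1 u)) = e • D.gr (ov 1 u) at he'
  rw [← (st_HTR D hD τ).1, oext_ov] at he'
  have h2 : seg (ov 1 u) (e • ev D.F (ov 1 u)) = seg (ov 1 (D.ρ τ u)) (ev D.F (ov 1 (D.ρ τ u))) := by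
    rw [seg_smul_right]
    exact he'.symm
  obtain ⟨c, -, hc, -⟩ := seg_eq_seg h2 (by
    rw [seg_smul_right]
    exact smul_ne_zero he0 hne)
  have hc1 : c = 1 := by
    have h4 := congrFun hc none
    rw [Pi.smul_apply, smul_eq_mul, ov_none, ov_none, mul_one] at h4
    exact h4.symm
  rw [hc1, one_smul] at hc
  apply hu τ hτ1 hτ2
  funext i
  exact congrFun hc (some i)

/-- A vector outside a proper closed set which is moved by the involutions. -/
theorem ax_point {D : VD} {m : ℕ} (hTD : TD D m) {A : Set (Fin D.w → ℂ)} (hA : ZClosed A)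
    (hAex : ∃ u, u ∉ A) : ∃ u, u ∉ A ∧ NF D u := by
  classical
  let S : Option {τ : D.G // τ ≠ 1} → Set (Fin D.w → ℂ) := fun o =>
    o.elim A fun τ => (LinearMap.ker (D.ρ τ.1 - LinearMap.id) : Submodule ℂ (Fin D.w → ℂ))
  obtain ⟨u, hu⟩ := genp_proper (S := S) (by
    rintro (_ | τ)
    · exact hA
    · exact zclosed_submodule _) (by
    rintro (_ | τ)
    · exact hAex
    · obtain ⟨x, hx⟩ := hTD.eff τ.1 τ.2
      refine ⟨x, fun h => hx ?_⟩
      have h1 : D.ρ τ.1 x - x = 0 := LinearMap.mem_ker.1 h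
      exact sub_eq_zero.1 h1)
  refine ⟨u, hu none, fun τ hτ _ h => hu (some ⟨τ, hτ⟩) ?_⟩
  change D.ρ τ u - u = 0
  exact sub_eq_zero.2 h

theorem st_AX : ST_AX := by
  intro D m N E X DX hTR A hAcl hAc hAg hAex
  have hD := hTR.td.good
  have hF : ∀ u : Fin D.w → ℂ, ev D.F (ov 1 u) ≠ 0 := by
    intro u h0
    have h1 := (hD.fd.zero (ov 1 u)).1 (fun j => congrFun h0 j)
    exact one_ne_zero h1.1
  obtain ⟨S0', h01, -, -, -, h02⟩ := hTR.res.sets (ax_S0 D) (ax_S0_closed hD)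
    (fun a y hy => ⟨hD.Ypm.cone a y hy.1, fun j => by
      rw [Pi.smul_apply, hy.2 j, smul_zero]⟩) (fun y hy => hy.1) (fun g => ax_S0_act hD g)
  obtain ⟨S1', h11, -, -, -, h12⟩ := hTR.res.sets (ax_S1 D A) (ax_S1_closed hD hAcl)
    (fun a y hy => ⟨hD.Ypm.cone a y hy.1, fun j => hAc a _ (hy.2 j)⟩) (fun y hy => hy.1)
    (fun g => ax_S1_act hD g hAc (hAg g))
  have hz : (0 : Fin (N + 1) → ℂ) ∈ DX := by
    have h1 := hTR.res.on 0 (ax_zero_FX hTR.td)
    have h2 := hTR.res.dcone 0 _ h1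
    rwa [zero_smul] at h2
  refine ⟨DX ∪ (S0' ∪ S1'), zclosed_union hTR.res.dcl (zclosed_union h01 h11), ?_, ?_⟩
  · obtain ⟨u, hu, hNF⟩ := ax_point hTR.td hAcl hAex
    have hnfx := ax_nfx hTR.td hNF (one_ne_zero : (1 : ℂ) ≠ 0)
    rw [one_smul] at hnfx
    have hyY : D.gr (ov 1 u) ∈ D.Y := D.gr_mem _
    have hvDX := hTR.res.off _ hyY hnfx
    refine ⟨ev E (D.gr (ov 1 u)), hTR.res.img _ hyY, ?_, ?_⟩
    · intro h0
      apply hvDX
      rw [h0]
      exact hz
    · obtain ⟨j, hj⟩ := Function.ne_iff.1 (hF u)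
      rintro (h | h | h)
      · exact hvDX h
      · have h3 := ((h02 _ hyY hnfx).1 h).2 j
        unfold VD.gr at h3
        rw [seg_apply, ov_none, one_mul] at h3
        exact hj h3
      · have h3 := ((h12 _ hyY hnfx).1 h).2 j
        apply hu
        have h4 := hAc (ev D.F (ov 1 u) j)⁻¹ _ h3
        have h5 : (ev D.F (ov 1 u) j)⁻¹ • (fun i => D.gr (ov 1 u) (some i, j)) = u := by
          funext i
          unfold VD.gr
          rw [Pi.smul_apply, seg_apply, ov_some, smul_eq_mul]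
          have hj' : ev D.F (ov 1 u) j ≠ 0 := hj
          field_simp
        rwa [h5] at h4
  · intro v hv hv0 hvA
    have hvDX : v ∉ DX := fun h => hvA (Or.inl h)
    obtain ⟨y, hy, hyfx, rfl⟩ := hTR.res.surj v hv hvDX
    have hy0 : y ∉ ax_S0 D := fun h => hvA (Or.inr (Or.inl ((h02 y hy hyfx).2 h)))
    have hy1 : y ∉ ax_S1 D A := fun h => hvA (Or.inr (Or.inr ((h12 y hy hyfx).2 h)))
    have hne : y ≠ 0 := by
      rintro rfl
      exact hyfx (ax_zero_FX hTR.td)
    have h2 : ∃ j, y (none, j) ≠ 0 := by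
      by_contra hn
      push Not at hn
      exact hy0 ⟨hy, hn⟩
    obtain ⟨j, hj⟩ := h2
    have hy' := hy
    obtain ⟨x, η, hxy, hs⟩ := hy'
    have hx : x none ≠ 0 := by
      intro h
      apply hj
      rw [hxy, seg_apply, h, zero_mul]
    have hFx : ev D.F x ≠ 0 := by
      intro h
      have h3 := (hD.fd.zero x).1 (fun j => congrFun h j)
      exact hx h3.1
    obtain ⟨c, hc⟩ := hs.eq_smul hFx
    have h4 : x = x none • ov 1 ((x none)⁻¹ • fun i => x (some i)) := by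
      rw [← ov_smul, mul_one, smul_smul, mul_inv_cancel₀ hx, one_smul, ov_eta]
    set u : Fin D.w → ℂ := (x none)⁻¹ • fun i => x (some i) with hu
    have h5 : y = (c * (x none) ^ (D.a + 1)) • D.gr (ov 1 u) := by
      have h6 : y = c • D.gr x := by
        rw [hxy, hc, seg_smul_right]
        rfl
      have h7 : D.gr x = (x none) ^ (D.a + 1) • D.gr (ov 1 u) := by
        rw [← VD.gr_smul D hD.fd.hom, ← h4]
      rw [h6, h7, smul_smul]
    refine ⟨c * (x none) ^ (D.a + 1), u, ?_, ?_, by rw [← h5]⟩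
    · intro h
      apply hne
      rw [h5, h, zero_smul]
    · intro huA
      apply hy1
      refine ⟨hy, fun k => ?_⟩
      have h6 : (fun i => y (some i, k)) =
          (c * (x none) ^ (D.a + 1) * ev D.F (ov 1 u) k) • u := by
        funext i
        conv_lhs => rw [h5]
        unfold VD.gr
        rw [Pi.smul_apply, seg_apply, ov_some, smul_eq_mul, Pi.smul_apply, smul_eq_mul]
        ring
      rw [h6]
      exact hAc _ _ huA

end Pool.Agent.Helper87.PG
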