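import Pool.Agent.Helper87.PG.Stmts

/-!
Module SYL1 of `MP_39dd1a_ag` (hand-in `FiniteModels`): a Sylow subgroup of a transitive group of
degree `2 ^ k` is transitive.
-/

set_option autoImplicit false

namespace Pool.Agent.Helper87.PG

open MvPolynomial Pool.Agent.Helper48.VMRT Pool.Agent.Helper87.VM Pool.Agent.Helper87.TC

theorem syl1_card {S ι : Type} [Group S] [MulAction S ι] (i : ι) :
    Nat.card S = Nat.card (MulAction.orbit S i) * Nat.card (MulAction.stabilizer S i) := by
  rw [Nat.card_congr (MulAction.orbitEquivQuotientStabilizer S i)]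
  exact Subgroup.card_eq_card_quotient_mul_card_subgroup _

theorem syl1_stab {S ι : Type} [Group S] [MulAction S ι] [Finite S] (P : Subgroup S) (i : ι) :
    Nat.card (MulAction.stabilizer P i) ∣ Nat.card (MulAction.stabilizer S i) := by
  have h1 : (MulAction.stabilizer P i).map P.subtype ≤ MulAction.stabilizer S i := by
    rintro _ ⟨x, hx, rfl⟩
    exact hx
  have h2 : Nat.card ((MulAction.stabilizer P i).map P.subtype) =
      Nat.card (MulAction.stabilizer P i) :=
    Nat.card_congr ((MulAction.stabilizer P i).equivMapOfInjective P.subtype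
      P.subtype_injective).toEquiv.symm
  rw [← h2]
  exact Subgroup.card_dvd_of_le h1

theorem st_SYL1 : ST_SYL1 := by
  intro S ι _ _ _ k π hk htr
  classical
  have hp : Fact (Nat.Prime 2) := ⟨Nat.prime_two⟩
  obtain ⟨P⟩ : Nonempty (Sylow 2 S) := inferInstance
  let act : MulAction S ι := MulAction.compHom ι π
  have hact : ∀ (s : S) (i : ι), s • i = π s i := fun _ _ => rfl
  have hcard : Nat.card (P : Subgroup S) = 2 ^ (Nat.card S).factorization 2 :=
    Sylow.card_eq_multiplicity P
  have hS : Nat.card S ≠ 0 := Nat.card_pos.ne'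
  refine ⟨(P : Subgroup S), _, hcard, fun i j => ?_⟩
  have h1 := syl1_card (S := S) i
  have h2 : MulAction.orbit S i = Set.univ := by
    ext x
    refine ⟨fun _ => trivial, fun _ => ?_⟩
    obtain ⟨s, hs⟩ := htr i x
    exact ⟨s, hs⟩
  have h3 : Nat.card (MulAction.orbit S i) = 2 ^ k := by
    rw [h2, Nat.card_congr (Equiv.Set.univ ι)]
    exact hk
  have h4 := syl1_card (S := (P : Subgroup S)) i
  have h5 := syl1_stab (P : Subgroup S) i
  obtain ⟨b, hb, hb'⟩ := (Nat.dvd_prime_pow Nat.prime_two).1
    (show Nat.card (MulAction.stabilizer (P : Subgroup S) i) ∣ 2 ^ (Nat.card S).factorization 2 by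
      rw [← hcard]
      exact Subgroup.card_subgroup_dvd_card _)
  have h6 : 2 ^ (k + b) ∣ Nat.card S := by
    rw [h1, h3, pow_add]
    exact mul_dvd_mul_left _ (hb' ▸ h5)
  have h7 : k + b ≤ (Nat.card S).factorization 2 :=
    (Nat.prime_two.pow_dvd_iff_le_factorization hS).1 h6
  have h8 : 2 ^ k ≤ Nat.card (MulAction.orbit (P : Subgroup S) i) := by
    rw [hcard, hb'] at h4
    have h9 : 2 ^ (k + b) ≤ Nat.card (MulAction.orbit (P : Subgroup S) i) * 2 ^ b := by
      rw [← h4]
      exact Nat.pow_le_pow_right (by norm_num) h7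
    rw [pow_add] at h9
    exact Nat.le_of_mul_le_mul_right h9 (by positivity)
  have h10 : MulAction.orbit (P : Subgroup S) i = Set.univ := by
    apply Set.eq_of_subset_of_ncard_le (Set.subset_univ _)
    rw [Set.ncard_univ, hk]
    exact h8
  have h11 : j ∈ MulAction.orbit (P : Subgroup S) i := by
    rw [h10]
    trivial
  obtain ⟨⟨s, hs⟩, hs'⟩ := h11
  exact ⟨s, hs, hs'⟩

end Pool.Agent.Helper87.PG
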